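import Mathlib
import Pool.Agent.V11194.LensPair

set_option autoImplicit false

/-!
# Isospectral non-isometric lens spaces with `n ≡ -1` modulo `φ(q)/2`
-/

namespace Pool.Agent.Results.MP_1b0b4e_gt.IsospectralPair

/-- Rotation of the plane by the angle `t`. -/
noncomputable def rotation (t : ℝ) : Matrix (Fin 2) (Fin 2) ℝ :=
  !![Real.cos t, -Real.sin t; Real.sin t, Real.cos t]

/-- The matrix, in real coordinates of `ℂⁿ = ℝ²ⁿ`, of the map
`g (z₁, …, zₙ) = (ξ^{s₁} z₁, …, ξ^{sₙ} zₙ)` with `ξ = exp (2πi/q)`: the block diagonal matrix of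
the rotations by the angles `2π s_j / q`. -/
noncomputable def genMatrix {n : ℕ} (q : ℕ) (s : Fin n → ℤ) :
    Matrix (Fin (2 * n)) (Fin (2 * n)) ℝ :=
  (Matrix.blockDiagonal fun j => rotation (2 * Real.pi * s j / q)).submatrix
    finProdFinEquiv.symm finProdFinEquiv.symm

/-- The cyclic group generated by `g`; the lens space `L(q; s)` is the quotient of the round unit
sphere `S^{2n-1}` of `ℝ²ⁿ` by this group. -/
def lensGroup {n : ℕ} (q : ℕ) (s : Fin n → ℤ) :
    Subgroup (Matrix.orthogonalGroup (Fin (2 * n)) ℝ) :=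
  Subgroup.closure {g | g.1 = genMatrix q s}

/-- The dimension of the space of `Γ`-invariant harmonic homogeneous polynomials of degree `k` on
`ℝ^N`, i.e. the multiplicity of the eigenvalue `k (k + N - 2)` of the Laplacian on the quotient of
the unit sphere by `Γ`. -/
noncomputable def multiplicity {N : ℕ} (Γ : Subgroup (Matrix.orthogonalGroup (Fin N) ℝ))
    (k : ℕ) : ℕ :=
  Module.finrank ℝ ↥(MvPolynomial.homogeneousSubmodule (Fin N) ℝ k ⊓
    LinearMap.ker (∑ i : Fin N,
      (MvPolynomial.pderiv i).toLinearMap ∘ₗ (MvPolynomial.pderiv i).toLinearMap) ⊓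
    ⨅ g ∈ Γ, LinearMap.ker ((MvPolynomial.aeval (fun i : Fin N =>
      ∑ j : Fin N, MvPolynomial.C (g.1 i j) * MvPolynomial.X j)).toLinearMap
        - LinearMap.id))

/-- The two quotients of the sphere have the same Laplace spectrum with multiplicities. -/
def Isospectral {N : ℕ} (Γ₁ Γ₂ : Subgroup (Matrix.orthogonalGroup (Fin N) ℝ)) : Prop :=
  ∀ k : ℕ, multiplicity Γ₁ k = multiplicity Γ₂ k

/-- The two quotients of the sphere are isometric: the groups are conjugate in `O(N)`. -/
def Isometric {N : ℕ} (Γ₁ Γ₂ : Subgroup (Matrix.orthogonalGroup (Fin N) ℝ)) : Prop :=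
  ∃ h : Matrix.orthogonalGroup (Fin N) ℝ, ∀ g, g ∈ Γ₁ ↔ h * g * h⁻¹ ∈ Γ₂

open Pool.Agent.Helper477 Pool.Agent.Helper477.Sph Pool.Agent.Helper477.HarmInv
open Pool.Agent.V11194 Polynomial

theorem isospectral_of_hilb {N : ℕ} (hN : 0 < N)
    (Γ₁ Γ₂ : Subgroup (Matrix.orthogonalGroup (Fin N) ℝ)) (h : hilb Γ₁ = hilb Γ₂) :
    Isospectral Γ₁ Γ₂ := by
  have hm : ∀ (Γ : Subgroup (Matrix.orthogonalGroup (Fin N) ℝ)) (k : ℕ), multiplicity Γ k =
      Module.finrank ℝ ↥(MvPolynomial.homogeneousSubmodule (Fin N) ℝ k ⊓ LinearMap.ker (D N) ⊓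
        Inv Γ) := fun Γ k => rfl
  intro k
  rw [hm, hm]
  refine isospectral_of_invariants hN Γ₁ Γ₂ (fun k => ?_) k
  have h1 := congrArg (PowerSeries.coeff k) h
  unfold hilb at h1
  rw [PowerSeries.coeff_mk, PowerSeries.coeff_mk] at h1
  exact_mod_cast h1

theorem lensGroup_eq (s : Fin 19 → ZMod 25) :
    lensGroup 25 (fun j => ((s j).val : ℤ)) = LG s := by
  unfold lensGroup LG
  rw [Subgroup.zpowers_eq_closure]
  congr 1
  ext g
  constructor
  · intro h
    apply Subtype.ext
    rw [h]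
    rfl
  · intro h
    rw [Set.mem_singleton_iff.1 h]
    rfl

/-- The multiset of rotation numbers of the two tuples, multiplied by `u`. -/
def mult (L : List (ZMod 25)) (u : ZMod 25) : Multiset (ZMod 25) :=
  ((L.map fun a => u * a) ++ (L.map fun a => -(u * a)) : List (ZMod 25))

theorem mult_ne : ∀ u : ZMod 25, mult lA 1 ≠ mult lB u := by decide +kernel

theorem roots_prod (L : List (ZMod 25)) (u : ZMod 25) :
    ((L.map (fun a => QQ (u * a))).prod : ℂ[X]).roots =
      (mult L u).map (ZMod.stdAddChar (N := 25)) := by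
  have h1 : ((L.map (fun a => QQ (u * a))).prod : ℂ[X]) =
      (((mult L u).map (ZMod.stdAddChar (N := 25))).map (fun a => X - C a)).prod := by
    unfold mult
    rw [Multiset.map_coe, Multiset.map_coe, Multiset.prod_coe, List.map_append, List.map_append,
      List.prod_append]
    induction L with
    | nil => simp
    | cons a L ih =>
      rw [List.map_cons, List.prod_cons, ih, QQ_factor]
      simp only [List.map_cons, List.prod_cons]
      ring
  rw [h1, Polynomial.roots_multiset_prod_X_sub_C]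

theorem not_isometric : ¬ Isometric (LG sA) (LG sB) := by
  rintro ⟨h, hh⟩
  have h1 : h * lg sA * h⁻¹ ∈ LG sB := (hh _).1 (Subgroup.mem_zpowers _)
  obtain ⟨l, hl⟩ := mem_LG.1 h1
  have h2 : (cx (lg sB ^ l).1).charpolyRev = (cx (lg sA ^ 1).1).charpolyRev := by
    rw [hl, pow_one]
    have : (h * lg sA * h⁻¹).1 = h.1 * (lg sA).1 * (h⁻¹).1 := rfl
    rw [this, cx_mul, cx_mul]
    apply charpolyRev_conj
    rw [← cx_mul]
    have h3 : (h⁻¹).1 * h.1 = 1 := congrArg Subtype.val (inv_mul_cancel h)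
    rw [h3, cx_one]
  rw [charpolyRev_lg, charpolyRev_lg, prod_sA (fun c => QQ (((1 : ℕ) : ZMod 25) * c)),
    prod_sB (fun c => QQ ((l : ZMod 25) * c))] at h2
  have h3 := congrArg Polynomial.roots h2
  rw [roots_prod, roots_prod] at h3
  have h4 := Multiset.map_injective (ZMod.injective_stdAddChar (N := 25)) h3
  rw [Nat.cast_one] at h4
  exact mult_ne l h4.symm

/-- There are `n ≥ 2`, `q ≥ 3` with `n ≡ -1` modulo `φ(q)/2` and two isospectral, non-isometric
`(2n-1)`-dimensional lens spaces with fundamental group of order `q`. -/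
theorem result : ∃ (n q : ℕ) (s s' : Fin n → ℤ), 2 ≤ n ∧ 3 ≤ q ∧
    (n : ℤ) ≡ -1 [ZMOD ((Nat.totient q / 2 : ℕ) : ℤ)] ∧
    (∀ j, IsCoprime (s j) (q : ℤ)) ∧ (∀ j, IsCoprime (s' j) (q : ℤ)) ∧
    Isospectral (lensGroup q s) (lensGroup q s') ∧
    ¬ Isometric (lensGroup q s) (lensGroup q s') := by
  refine ⟨19, 25, fun j => ((sA j).val : ℤ), fun j => ((sB j).val : ℤ), by norm_num, by norm_num,
    ?_, ?_, ?_, ?_, ?_⟩
  · have : Nat.totient 25 = 20 := by decide +kernel
    rw [this]
    decide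
  · intro j
    rw [Int.isCoprime_iff_gcd_eq_one]
    revert j
    decide +kernel
  · intro j
    rw [Int.isCoprime_iff_gcd_eq_one]
    revert j
    decide +kernel
  · rw [lensGroup_eq, lensGroup_eq]
    exact isospectral_of_hilb (by norm_num) _ _ hilb_eq
  · rw [lensGroup_eq, lensGroup_eq]
    exact not_isometric

end Pool.Agent.Results.MP_1b0b4e_gt.IsospectralPair
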